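import Pool.Agent.R937.BR.Mono

/-!
# Tate classes on the products of arbitrary varieties of bounded complexity and abelian varieties:
# the theorem
-/

set_option autoImplicit false
set_option linter.unusedSectionVars false
set_option linter.unusedVariables false

namespace Pool.Agent.U34.BRM

open NumberField Pool.Agent.H204R3.CM Pool.Agent.W547.KB Pool.Agent.W547.LD Pool.Agent.W495.TA Module
  Pool.Agent.W495.TB Pool.Agent.W495.TC Pool.Agent.TH117.F5 Pool.Agent.TH117.BL Pool.Agent.Y137.SF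
  Pool.Agent.R937.CS Pool.Agent.W976.TA Pool.Agent.R937.BR
open Pool.Agent.Y137.TV (tens tens_apply lam lam_ne_zero mono_F expandM)
open Pool.Agent.R937.VS (slope gen_pow gen_smul component)

noncomputable section

section comp

variable {p : ℕ} [Fact p.Prime] {ν : PadicAlgCl p ≃+* ℂ} {Ω : Type} [Field Ω] [CharZero Ω]
  {L : Type} [Field L] [NumberField L] [IsCMField L] [IsGalois ℚ L] (j : L →+* ℂ) (jO : L →+* Ω)
  {K : Type} [DecidableEq K] {H : K → Type} [∀ i, AddCommGroup (H i)] [∀ i, Module Ω (H i)]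
  {a : ℕ} {φ : ∀ i, H i →ₗ[Ω] H i} {n : ℕ} {S : Option (Lb p ν j n) → Set (L ≃ₐ[ℚ] L)}

theorem tens_smul {Y : RedAV p ν} {κ : Type} [Fintype κ] [DecidableEq κ] (I : κ → Wt Y.X L)
    {T : Finset K} (c : Ω) (w : ML Ω H T) :
    tens (monoO jO I) (c • w) = c • tens (monoO jO I) w := by
  ext v x
  rw [AlternatingMap.smul_apply, tens_apply, tens_apply]
  rw [smul_comm]

theorem tens_sum {Y : RedAV p ν} {κ : Type} [Fintype κ] [DecidableEq κ] (I : κ → Wt Y.X L)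
    {T : Finset K} {ι : Type} (s : Finset ι) (w : ι → ML Ω H T) :
    tens (monoO jO I) (∑ c ∈ s, w c) = ∑ c ∈ s, tens (monoO jO I) (w c) := by
  classical
  induction s using Finset.induction_on with
  | empty =>
    rw [Finset.sum_empty, Finset.sum_empty]
    ext v x
    rw [tens_apply, smul_zero]
    rfl
  | insert a s ha ih =>
    rw [Finset.sum_insert ha, Finset.sum_insert ha, ← ih]
    refine AlternatingMap.ext fun v => ?_
    rw [AlternatingMap.add_apply, tens_apply, tens_apply, tens_apply, smul_add]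

/-- One component of a Tate class. -/
theorem component_mem (ha : 0 < a) (hn : 0 < n) (hS : IsTab j n S) {Y : RedAV p ν} (hY : Big Y.X j)
    (hdim : ∀ i, finrank ℚ (Y.X.factor i).E ≤ n) {κ : Type} [Fintype κ] [DecidableEq κ]
    (I : κ → Wt Y.X L) (T : Finset K) {ι : K → Type} [∀ i, Fintype (ι i)]
    (u : ∀ i, Basis (ι i) Ω (H i)) (α : ∀ i, ι i → Ω) (N : K → ℕ)
    (hu : ∀ i c, ((φ i - α i c • (1 : H i →ₗ[Ω] H i)) ^ N i) (u i c) = 0)
    (hco : ∀ i c x, ((u i).coord c) (((φ i - α i c • (1 : H i →ₗ[Ω] H i)) ^ N i) x) = 0)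
    (b : K → ℕ) (y : ∀ i : T, ι i → L) (f : ∀ i : T, ι i → (L ≃ₐ[ℚ] L) → ℚ)
    (hy : ∀ (i : T) c, jO (y i c) = α i c)
    (hnum : ∀ (i : T) c, IsNum p ν j a (b i) (f i c) (y i c))
    (hatom : ∀ (i : T) c, IsAtom (Dec p ν j) (cc L) n (f i c))
    {s t c r : ℕ} (hs : 0 < s) (ht : 0 < t) (hst : Y.a * s = a * t) (w : ML Ω H T)
    (hw : ((((∏ k, lam jO (I k)) ^ s) • frobW φ T ^ t - ((p : Ω) ^ (a * t * c)) •
      (1 : ML Ω H T →ₗ[Ω] ML Ω H T)) ^ r) w = 0) :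
    AlgW a φ (BB n) T Y κ (tens (monoO jO I) w) := by
  classical
  rw [expand T u w, tens_sum]
  refine algW_sum _ _ fun d _ => ?_
  rw [tens_smul]
  by_cases hd : (w fun i => u i (d i)) = 0
  · rw [hd, zero_smul]
    exact AlgW.zero _ _ _
  refine AlgW.smul _ _ ?_
  -- the relation between the eigenvalues
  rw [frobW_pow] at hw
  have hrel : (∏ k, lam jO (I k)) ^ s * ∏ i : T, (α i (d i)) ^ t = (p : Ω) ^ (a * t * c) := by
    by_contra hne
    apply hd
    exact vanish (ψ := fun i => φ i ^ t) (a := fun i : T => (α i (d i)) ^ t) hne _ r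
      (fun i => N i) le_rfl w hw (fun i => u i (d i))
      fun i => gen_pow (φ i) (α i (d i)) (N i) t _ (hu i (d i))
  let y' : K → L := fun i => if h : i ∈ T then y ⟨i, h⟩ (d ⟨i, h⟩) else 0
  let f' : K → (L ≃ₐ[ℚ] L) → ℚ := fun i => if h : i ∈ T then f ⟨i, h⟩ (d ⟨i, h⟩) else 0
  have hy' : ∀ i (h : i ∈ T), y' i = y ⟨i, h⟩ (d ⟨i, h⟩) := fun i h => dif_pos h
  have hf' : ∀ i (h : i ∈ T), f' i = f ⟨i, h⟩ (d ⟨i, h⟩) := fun i h => dif_pos h
  have hnum' : ∀ i ∈ T, IsNum p ν j a (b i) (f' i) (y' i) := by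
    intro i h
    rw [hy' i h, hf' i h]
    exact hnum ⟨i, h⟩ _
  have hatom' : ∀ i ∈ T, IsAtom (Dec p ν j) (cc L) n (f' i) := by
    intro i h
    rw [hf' i h]
    exact hatom ⟨i, h⟩ _
  have hprod : ∏ i ∈ T, jO (y' i) ^ t = ∏ i : T, (α i (d i)) ^ t := by
    rw [← Finset.prod_coe_sort T fun i => jO (y' i) ^ t]
    refine Finset.prod_congr rfl fun i _ => ?_
    rw [hy' i.1 i.2, hy]
  obtain ⟨hev, hsum⟩ := rel_of_tate j jO hY I ha ht hst hnum' (by rw [hprod]; exact hrel)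
  refine mono_mem (R := N) jO ha hn hS hY hdim I T _ hnum' hatom' (fun i h => ?_)
    ⟨c, by omega⟩ hsum
  refine frobW_single φ i _ (jO (y' i)) (N i) fun x => ?_
  rw [hy' i h, hy]
  simp only [dif_pos h]
  exact hco i _ x

end comp

/-- **The theorem.** -/
theorem main {p : ℕ} [Fact p.Prime] {ν : PadicAlgCl p ≃+* ℂ} {Ω : Type} [Field Ω] [IsAlgClosed Ω]
    [CharZero Ω] (n a : ℕ) (hn : 0 < n) (ha : 0 < a) {K : Type} [DecidableEq K] {H : K → Type}
    [∀ i, AddCommGroup (H i)] [∀ i, Module Ω (H i)] [∀ i, FiniteDimensional Ω (H i)]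
    (φ : ∀ i, H i →ₗ[Ω] H i) (b : K → ℕ) (T : Finset K) (hb : ∀ i ∈ T, b i ≤ n)
    (hφ : ∀ i ∈ T, ∀ α, End.HasEigenvalue (φ i) α → IsWeil p ν a (b i) n α) (Y : RedAV p ν)
    (hY : ∀ i, finrank ℚ (Y.X.factor i).E ≤ n) (r k : ℕ) (g : Cls Ω H T Y (Fin k))
    (hg : IsTate a φ r g) : AlgW a φ (BB n) T Y (Fin k) g := by
  classical
  choose ι hι u α N hev hu hco using fun i => exists_basis (φ i)
  -- the fields of the eigenvalues
  have hW : ∀ q : (Σ i : T, ι i), IsWeil p ν a (b q.1) n (α q.1 q.2) := fun q =>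
    hφ q.1 q.1.2 _ (hev q.1 q.2)
  choose F hF1 hF2 ιF x hx hgen hdeg hint hweil hslope using hW
  have hconj : ∀ q : (Σ i : T, ι i), ∃ τ : F q → F q, ∀ (ψ : F q →+* ℂ) z,
      starRingEnd ℂ (ψ z) = ψ (τ z) := fun q => exists_conj (x q) (hgen q) (p ^ (a * b q.1))
    (pow_pos (Fact.out : p.Prime).pos _) fun ψ => by
      rw [hweil q ψ]
      push_cast
      rfl
  choose τ hτ using hconj
  obtain ⟨L, _, _, _, _, j, hYj, hkp, hE, Hs, hH, hDH⟩ := exists_setup (p := p) (ν := ν) n Y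
    (fun q : (Σ i : T, ι i) => ({ E := F q, τ := τ q, hτ := hτ q } : FldC))
  obtain ⟨S, hS⟩ := exists_tab j n hkp Hs hH hDH
  let jO : L →+* Ω := ((IsAlgClosed.lift : L →ₐ[ℚ] Ω) : L →+* Ω)
  have hex : ∀ q : (Σ i : T, ι i), ∃ (y : L) (f : (L ≃ₐ[ℚ] L) → ℚ), jO y = α q.1 q.2 ∧
      IsNum p ν j a (b q.1) f y ∧ IsAtom (Dec p ν j) (cc L) n f := by
    intro q
    obtain ⟨y, f, h1, h2, h3⟩ := exists_num j jO (x q) (ιF q) (hE q) ha (hb q.1 q.1.2) (hdeg q)
      (hint q) (hweil q) (hslope q)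
    exact ⟨y, f, h1.trans (hx q), h2, h3⟩
  choose y f hy hnum hatom using hex
  obtain ⟨e, h1, h0⟩ := Pool.Agent.W67.TA.basis p ν Ω L j jO Y hYj
  haveI : Module.Finite ℚ Y.X.H1 := Module.Finite.pi
  haveI : Finite (Wt Y.X L) := Module.Finite.finite_basis e
  letI : Fintype (Wt Y.X L) := Fintype.ofFinite _
  have hne : ((Fintype.card (Equiv.Perm (Fin k)) : ℕ) : Ω) ≠ 0 :=
    Nat.cast_ne_zero.2 Fintype.card_ne_zero
  obtain ⟨s, t, c, hs, ht, hst, hg⟩ := hg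
  have h2 := expandM jO Y e h1 h0 (Fin k) g
  have h3 : AlgW a φ (BB n) T Y (Fin k) (((Fintype.card (Equiv.Perm (Fin k)) : ℕ) : Ω) • g) := by
    rw [h2]
    refine algW_sum _ _ fun I _ => ?_
    have hw := component jO e h1 h0 hg I
    exact component_mem j jO ha hn hS hYj hY I T u α N hu hco b (fun i d => y ⟨i, d⟩)
      (fun i d => f ⟨i, d⟩) (fun i d => hy ⟨i, d⟩) (fun i d => hnum ⟨i, d⟩)
      (fun i d => hatom ⟨i, d⟩) hs ht hst _ hw
  have h4 := AlgW.smul (((Fintype.card (Equiv.Perm (Fin k)) : ℕ) : Ω))⁻¹ _ h3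
  rwa [smul_smul, inv_mul_cancel₀ hne, one_smul] at h4

end

end Pool.Agent.U34.BRM
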